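import Pool.Agent.W866.TC.Stm

/-!
# Translates of a Cantor set: counting (COUNT)
-/

set_option autoImplicit false

namespace Pool.Agent.W826.TC

open Pool.Agent.W866.TC
open Cardinal

/-- at most continuum many elements -/
def SM {α : Type} (s : Set α) : Prop := #s ≤ 𝔠

theorem SM.mono {α : Type} {s t : Set α} (h : s ⊆ t) (ht : SM t) : SM s :=
  (Cardinal.mk_le_mk_of_subset h).trans ht

theorem SM.univ {α : Type} (h : #α ≤ 𝔠) : SM (Set.univ : Set α) := by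
  unfold SM
  rwa [Cardinal.mk_univ]

theorem SM.prod {α β : Type} {s : Set α} {t : Set β} (hs : SM s) (ht : SM t) : SM (s ×ˢ t) := by
  unfold SM at *
  rw [Cardinal.mk_setProd]
  calc #s * #t ≤ 𝔠 * 𝔠 := mul_le_mul' hs ht
    _ = 𝔠 := Cardinal.continuum_mul_self

theorem SM.sub {α : Type} {s : Set α} (hs : SM s) : SM {t : Set α | t ⊆ s ∧ t.Countable} := by
  unfold SM at *
  have h1 : {t : Set α | t ⊆ s ∧ t.Countable} = {t : Set α | t ⊆ s ∧ #t ≤ ℵ₀} := by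
    ext t
    rw [Set.mem_ofPred_eq, Set.mem_ofPred_eq, Cardinal.le_aleph0_iff_set_countable]
  rw [h1]
  refine (Cardinal.mk_bounded_subset_le s ℵ₀).trans ?_
  calc max #s ℵ₀ ^ ℵ₀ ≤ 𝔠 ^ ℵ₀ :=
        Cardinal.power_le_power_right (max_le hs Cardinal.aleph0_le_continuum)
    _ = 𝔠 := Cardinal.continuum_power_aleph0

theorem SM.inj {α β : Type} {s : Set α} {t : Set β} (f : α → β) (hf : Set.InjOn f s)
    (hst : ∀ x ∈ s, f x ∈ t) (ht : SM t) : SM s := by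
  unfold SM at *
  refine le_trans ?_ ht
  refine Cardinal.mk_le_of_injective (f := fun x : s => (⟨f x, hst x x.2⟩ : t)) ?_
  intro x y hxy
  exact Subtype.ext (hf x.2 y.2 (congrArg Subtype.val hxy))

theorem Iio_SM (a : Wc) : SM (Set.Iio a) := by
  unfold SM
  have := Cardinal.mk_Iio_toType_ord_lt a
  exact Order.lt_succ_iff.1 this

theorem setN_SM : SM (Set.univ : Set (Set ℕ)) := SM.univ (by
  rw [Cardinal.mk_set, Cardinal.mk_nat, Cardinal.two_power_aleph0])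

theorem nn_SM : SM (Set.univ : Set (ℕ × ℕ)) := SM.univ (by
  rw [Cardinal.mk_eq_aleph0]
  exact Cardinal.aleph0_le_continuum)

theorem n_SM : SM (Set.univ : Set ℕ) := SM.univ (by
  rw [Cardinal.mk_nat]
  exact Cardinal.aleph0_le_continuum)

/-- the indices below `a` -/
def IB (a : Wc) : Set (Wc × Set ℕ) := {ι | ι.1 < a}

theorem IB_SM (a : Wc) : SM (IB a) :=
  ((Iio_SM a).prod setN_SM).mono (by
    intro ι hι
    exact ⟨hι, Set.mem_univ _⟩)

/-- the conditions below `a` -/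
def CB (a : Wc) : Set (Cond Wc (Set ℕ)) :=
  {p | {c | p.u c ≠ (0, 0)}.Finite ∧ (∀ c, p.u c ≠ (0, 0) → c < a) ∧ ∀ ι ∈ p.F, ι.1 < a}

theorem CB_SM (a : Wc) : SM (CB a) := by
  refine SM.inj (t := {t : Set (Wc × (ℕ × ℕ)) | t ⊆ Set.Iio a ×ˢ Set.univ ∧ t.Countable} ×ˢ
      {t : Set (Wc × Set ℕ) | t ⊆ IB a ∧ t.Countable})
    (fun p => ({x : Wc × (ℕ × ℕ) | p.u x.1 ≠ (0, 0) ∧ x.2 = p.u x.1}, (p.F : Set (Wc × Set ℕ))))
    ?_ ?_ ((((Iio_SM a).prod nn_SM).sub).prod (IB_SM a).sub)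
  · intro p _ q _ hpq
    have h1 := congrArg Prod.fst hpq
    have h2 := congrArg Prod.snd hpq
    simp only at h1 h2
    have h3 : p.u = q.u := by
      funext c
      have h4 := Set.ext_iff.1 h1
      by_cases hp : p.u c = (0, 0)
      · by_cases hq : q.u c = (0, 0)
        · rw [hp, hq]
        · have h5 := (h4 (c, q.u c)).2 ⟨hq, rfl⟩
          exact absurd hp h5.1
      · have h5 := (h4 (c, p.u c)).1 ⟨hp, rfl⟩
        exact h5.2
    exact Cond.ext h3 (Finset.coe_injective h2)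
  · rintro p ⟨hp1, hp2, hp3⟩
    refine ⟨⟨?_, ?_⟩, ?_, ?_⟩
    · rintro ⟨c, n⟩ ⟨hc, -⟩
      exact ⟨hp2 c hc, Set.mem_univ _⟩
    · refine Set.Countable.mono ?_ (hp1.countable.image (fun c => (c, p.u c)))
      rintro ⟨c, n⟩ ⟨hc, hn⟩
      refine ⟨c, hc, ?_⟩
      simp only at hn ⊢
      rw [hn]
    · intro ι hι
      exact hp3 ι hι
    · exact p.F.countable_toSet

theorem valid_CB {r : RD Wc (Set ℕ)} {a : Wc} (hr : IsR r) (ha : ∀ c ∈ r.w, c < a)
    {p : Cond Wc (Set ℕ)} (hp : Valid r p) : p ∈ CB a :=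
  ⟨hp.fin, fun c hc => ha c (hp.sub c hc), fun ι hι => ha _ (hr.Jw ι (hp.J ι hι))⟩

theorem count (hC : S_CTBL Wc (Set ℕ)) : S_COUNT := by
  intro a
  have key : SM {o : Obj | InB a o} := by
    refine SM.inj (t := {t : Set Wc | t ⊆ Set.Iio a ∧ t.Countable} ×ˢ
      {t : Set (Wc × Set ℕ) | t ⊆ IB a ∧ t.Countable} ×ˢ
      {t : Set ((Wc × Set ℕ) × Cond Wc (Set ℕ) × (ℕ × ℕ)) |
        t ⊆ IB a ×ˢ CB a ×ˢ Set.univ ∧ t.Countable} ×ˢ
      {t : Set (Cond Wc (Set ℕ) × Set (Cond Wc (Set ℕ))) |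
        t ⊆ CB a ×ˢ {s | s ⊆ CB a ∧ s.Countable} ∧ t.Countable} ×ˢ
      CB a ×ˢ
      {t : Set (ℕ × Cond Wc (Set ℕ) × (ℕ × ℕ)) |
        t ⊆ Set.univ ×ˢ CB a ×ˢ Set.univ ∧ t.Countable} ×ˢ
      (Set.univ : Set (ℕ × ℕ)))
      (fun o => (o.1.w, o.1.J,
        {x : (Wc × Set ℕ) × Cond Wc (Set ℕ) × (ℕ × ℕ) | x.2 ∈ o.1.nm x.1}, o.1.N, o.2.1,
        {x : ℕ × Cond Wc (Set ℕ) × (ℕ × ℕ) | x.2 ∈ o.2.2.1 x.1}, o.2.2.2)) ?_ ?_ ?_
    · rintro ⟨r, p, ν, n⟩ _ ⟨r', p', ν', n'⟩ _ h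
      simp only [Prod.mk.injEq] at h
      obtain ⟨h1, h2, h3, h4, h5, h6, h7⟩ := h
      have h8 : r.nm = r'.nm := by
        funext ι
        ext x
        exact (Set.ext_iff.1 h3 (ι, x))
      have h9 : ν = ν' := by
        funext j
        ext x
        exact (Set.ext_iff.1 h6 (j, x))
      have h10 : r = r' := RD.ext h1 h2 h8 h4
      rw [h10, h5, h9, h7]
    · rintro ⟨r, p, ν, n⟩ ⟨hr, hw, hp, hν⟩
      have hw : ∀ c ∈ r.w, c < a := hw
      have hr : IsR r := hr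
      have hp : Valid r p := hp
      have hν : ∀ j q n, (q, n) ∈ ν j → Valid r q := hν
      have hV : {p | Valid r p}.Countable := hC r hr
      refine ⟨⟨hw, hr.cw⟩, ⟨fun ι hι => hw _ (hr.Jw ι hι), hr.cJ⟩, ⟨?_, ?_⟩, ⟨?_, ?_⟩,
        valid_CB hr hw hp, ⟨?_, ?_⟩, Set.mem_univ _⟩
      · rintro ⟨ι, q, m⟩ hx
        have hx : (q, m) ∈ r.nm ι := hx
        have hι : ι ∈ r.J := by
          by_contra hcon
          rw [hr.junk ι hcon] at hx
          exact hx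
        exact ⟨hw _ (hr.Jw ι hι), valid_CB hr hw ((hr.name ι hι).valid q m hx), Set.mem_univ _⟩
      · refine Set.Countable.mono (s₂ := r.J ×ˢ {p | Valid r p} ×ˢ (Set.univ : Set (ℕ × ℕ))) ?_
          (hr.cJ.prod (hV.prod Set.countable_univ))
        rintro ⟨ι, q, m⟩ hx
        have hx : (q, m) ∈ r.nm ι := hx
        have hι : ι ∈ r.J := by
          by_contra hcon
          rw [hr.junk ι hcon] at hx
          exact hx
        exact ⟨hι, (hr.name ι hι).valid q m hx, Set.mem_univ _⟩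
      · rintro ⟨q, A⟩ hx
        have h1 := hr.N1 q A hx
        refine ⟨valid_CB hr hw h1.1, fun s hs => valid_CB hr hw (h1.2 s hs), ?_⟩
        exact hV.mono fun s hs => h1.2 s hs
      · exact hr.cN
      · rintro ⟨j, q, m⟩ hx
        exact ⟨Set.mem_univ _, valid_CB hr hw (hν j q m hx), Set.mem_univ _⟩
      · refine Set.Countable.mono (s₂ := (Set.univ : Set ℕ) ×ˢ {p | Valid r p} ×ˢ
          (Set.univ : Set (ℕ × ℕ))) ?_ (Set.countable_univ.prod (hV.prod Set.countable_univ))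
        rintro ⟨j, q, m⟩ hx
        exact ⟨Set.mem_univ _, hν j q m hx, Set.mem_univ _⟩
    · exact (Iio_SM a).sub.prod ((IB_SM a).sub.prod
        ((((IB_SM a).prod ((CB_SM a).prod nn_SM)).sub).prod
        ((((CB_SM a).prod (CB_SM a).sub).sub).prod ((CB_SM a).prod
        (((n_SM.prod ((CB_SM a).prod nn_SM)).sub).prod nn_SM)))))
  exact key

end Pool.Agent.W826.TC
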