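import Pool.Agent.W866.TC.Stm

/-!
# Translates of a Cantor set: arithmetic of nodes (EXT, HIT)
-/

set_option autoImplicit false

namespace Pool.Agent.W826.TC

open Pool.Agent.W866.TC

theorem b_pos (m : ℕ) : 0 < b m := by unfold b; positivity

theorem b_ge (m : ℕ) : 8 ≤ b m := by
  unfold b
  calc 8 = 2 ^ 3 := by norm_num
    _ ≤ 2 ^ (m + 3) := Nat.pow_le_pow_right (by norm_num) (by omega)

theorem b_mono {m m' : ℕ} (h : m ≤ m') : b m ≤ b m' :=
  Nat.pow_le_pow_right (by norm_num) (by omega)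

theorem B_succ (l : ℕ) : B (l + 1) = B l * b l := rfl

theorem B_pos (l : ℕ) : 0 < B l := by
  induction l with
  | zero => exact Nat.one_pos
  | succ l ih => rw [B_succ]; exact Nat.mul_pos ih (b_pos l)

theorem B_dvd {l l' : ℕ} (h : l ≤ l') : B l ∣ B l' := by
  induction l', h using Nat.le_induction with
  | base => exact dvd_rfl
  | succ l' _ ih => rw [B_succ]; exact ih.mul_right _

theorem div_succ {l l' : ℕ} (h : l ≤ l') : B (l' + 1) / B l = B l' / B l * b l' := by
  rw [B_succ, Nat.div_mul_right_comm (B_dvd h)]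

theorem cut_self (l k : ℕ) : cut l (l, k) = k := by
  show k / (B l / B l) = k
  rw [Nat.div_self (B_pos l), Nat.div_one]

theorem cut_succ {l l' : ℕ} (h : l ≤ l') (k : ℕ) : cut l (l' + 1, k) = cut l (l', k / b l') := by
  show k / (B (l' + 1) / B l) = k / b l' / (B l' / B l)
  rw [div_succ h, Nat.div_div_eq_div_mul, mul_comm]

theorem Kn_succ (l k : ℕ) : Kn (l + 1) k ↔ Kn l (k / b l) ∧ k % b l + 3 ≤ b l := Iff.rfl

/-- one number of level `l + 1` -/
theorem kn_of {l V c' : ℕ} (h : Kn l (V % B l)) (hc : c' + 3 ≤ b l) :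
    Kn (l + 1) ((b l * V + c') % B (l + 1)) := by
  have hb := b_pos l
  rw [B_succ, mul_comm (B l), Nat.mod_mul, Kn_succ]
  have e1 : (b l * V + c') % b l = c' := by
    rw [Nat.mul_add_mod, Nat.mod_eq_of_lt (by omega)]
  have e2 : (b l * V + c') / b l = V := by
    rw [Nat.mul_add_div hb, Nat.div_eq_of_lt (by omega), add_zero]
  rw [e1, e2]
  have e3 : (c' + b l * (V % B l)) / b l = V % B l := by
    rw [Nat.add_mul_div_left _ _ hb, Nat.div_eq_of_lt (by omega), zero_add]
  have e4 : (c' + b l * (V % B l)) % b l = c' := by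
    rw [Nat.add_mul_mod_self_left, Nat.mod_eq_of_lt (by omega)]
  rw [e3, e4]
  exact ⟨h, hc⟩

/-- the step -/
theorem good_succ {l x U c : ℕ} (h : GoodSum l (x / b l + U)) (hc : c < b l)
    (hx : (x % b l + c) % b l + 4 ≤ b l) : GoodSum (l + 1) (x + (U * b l + c)) := by
  have hb := b_pos l
  have hxb := Nat.mod_lt x hb
  have hdm := Nat.div_add_mod x (b l)
  have hdr := Nat.div_add_mod (x % b l + c) (b l)
  obtain ⟨r, hr⟩ : ∃ r, r = (x % b l + c) % b l := ⟨_, rfl⟩
  obtain ⟨e, he⟩ : ∃ e, e = (x % b l + c) / b l := ⟨_, rfl⟩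
  rw [← hr] at hx hdr
  rw [← he] at hdr
  have he2 : e < 2 := by
    rw [he]
    exact Nat.div_lt_of_lt_mul (by omega)
  have key : x + (U * b l + c) = b l * (x / b l + U + e) + r := by
    have h1 : b l * (x / b l + U + e) = b l * (x / b l) + U * b l + b l * e := by ring
    omega
  have hV : Kn l ((x / b l + U + e) % B l) := by
    rcases (by omega : e = 0 ∨ e = 1) with h0 | h0
    · rw [h0, add_zero]; exact h.1
    · rw [h0]; exact h.2
  constructor
  · rw [key]
    exact kn_of hV (by omega)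
  · rw [key, add_assoc]
    exact kn_of hV (by omega)

/-- choice of a last block -/
theorem choose_block (S : Finset ℕ) {β : ℕ} (h : 3 * S.card < β) :
    ∃ c < β, ∀ x ∈ S, (x % β + c) % β + 4 ≤ β := by
  classical
  have hβ : 0 < β := by omega
  by_contra hcon
  push Not at hcon
  have hsub : Finset.range β ⊆ S.biUnion (fun x =>
      (Finset.range β).filter (fun c => β < (x % β + c) % β + 4)) := by
    intro c hc
    obtain ⟨x, hx, h1⟩ := hcon c (Finset.mem_range.1 hc)
    rw [Finset.mem_biUnion]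
    exact ⟨x, hx, Finset.mem_filter.2 ⟨hc, h1⟩⟩
  have hcard : ∀ x ∈ S, ((Finset.range β).filter (fun c => β < (x % β + c) % β + 4)).card ≤ 3 := by
    intro x _
    have : ((Finset.range β).filter (fun c => β < (x % β + c) % β + 4)).card ≤
        (Finset.Ico (β - 3) β).card := by
      refine Finset.card_le_card_of_injOn (fun c => (x % β + c) % β) ?_ ?_
      · intro c hc
        rw [Finset.mem_coe, Finset.mem_filter] at hc
        rw [Finset.mem_coe, Finset.mem_Ico]
        have h5 := Nat.mod_lt (x % β + c) hβ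
        have h6 := hc.2
        show β - 3 ≤ (x % β + c) % β ∧ (x % β + c) % β < β
        exact ⟨by omega, h5⟩
      · intro c hc c' hc' hcc
        rw [Finset.mem_coe, Finset.mem_filter, Finset.mem_range] at hc hc'
        have h2 : (x % β + c) ≡ (x % β + c') [MOD β] := hcc
        have h3 := Nat.ModEq.add_left_cancel' _ h2
        have h4 : c % β = c' % β := h3
        rwa [Nat.mod_eq_of_lt hc.1, Nat.mod_eq_of_lt hc'.1] at h4
    rw [Nat.card_Ico] at this
    omega
  have h1 := Finset.card_le_card hsub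
  rw [Finset.card_range] at h1
  have h2 := Finset.card_biUnion_le_card_mul S _ 3 hcard
  omega

theorem ext : S_EXT := by
  intro l l' hll
  induction l', hll using Nat.le_induction with
  | base =>
    intro S u hu hS hcard
    refine ⟨u, hu, cut_self l u, fun x hx => ?_⟩
    have := (hS x hx).2
    rwa [cut_self] at this
  | succ l' hll ih =>
    intro S u hu hS hcard
    have hb := b_pos l'
    obtain ⟨u', hu', hc', hg⟩ := ih (S.image (fun x => x / b l')) u hu (by
      intro y hy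
      rw [Finset.mem_image] at hy
      obtain ⟨x, hx, rfl⟩ := hy
      obtain ⟨h1, h2⟩ := hS x hx
      rw [cut_succ hll] at h2
      refine ⟨?_, h2⟩
      rw [B_succ] at h1
      exact Nat.div_lt_of_lt_mul (by rw [mul_comm]; exact h1))
      (by
        have := Finset.card_image_le (s := S) (f := fun x => x / b l')
        omega)
    obtain ⟨c, hc, hcx⟩ := choose_block S (β := b l') (lt_of_lt_of_le hcard (b_mono hll))
    have e1 : (u' * b l' + c) / b l' = u' := by
      rw [mul_comm, Nat.mul_add_div hb, Nat.div_eq_of_lt hc, add_zero]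
    refine ⟨u' * b l' + c, ?_, ?_, ?_⟩
    · rw [B_succ]
      calc u' * b l' + c < u' * b l' + b l' := by omega
        _ = (u' + 1) * b l' := by ring
        _ ≤ B l' * b l' := Nat.mul_le_mul_right _ hu'
    · rw [cut_succ hll, e1, hc']
    · intro x hx
      exact good_succ (hg _ (Finset.mem_image_of_mem _ hx)) hc (hcx x hx)

theorem hit1 : S_HIT1 := by
  intro l S s u hs hu hsu hS hcard
  have hb := b_pos l
  have hb8 := b_ge l
  obtain ⟨c, hc, hcx⟩ := choose_block S (β := b l) hcard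
  obtain ⟨e, he1, he2, he3⟩ : ∃ e, 1 ≤ e ∧ e < b l ∧ (e + c) % b l + 4 ≤ b l := by
    rcases Nat.lt_or_ge c 2 with h | h
    · refine ⟨1, le_rfl, by omega, ?_⟩
      rw [Nat.mod_eq_of_lt (by omega)]
      omega
    · refine ⟨b l + 1 - c, by omega, by omega, ?_⟩
      rw [show b l + 1 - c + c = b l + 1 by omega, Nat.add_mod_left,
        Nat.mod_eq_of_lt (by omega)]
      omega
  have hlt : ∀ {v d : ℕ}, v < B l → d < b l → v * b l + d < B (l + 1) := by
    intro v d hv hd
    rw [B_succ]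
    calc v * b l + d < v * b l + b l := by omega
      _ = (v + 1) * b l := by ring
      _ ≤ B l * b l := Nat.mul_le_mul_right _ hv
  have hdiv : ∀ {v d : ℕ}, d < b l → (v * b l + d) / b l = v := by
    intro v d hd
    rw [mul_comm, Nat.mul_add_div hb, Nat.div_eq_of_lt hd, add_zero]
  have hmod : ∀ {v d : ℕ}, d < b l → (v * b l + d) % b l = d := by
    intro v d hd
    rw [mul_comm, Nat.mul_add_mod, Nat.mod_eq_of_lt hd]
  refine ⟨s * b l + e, hlt hs he2, u * b l + c, hlt hu hc, hdiv he2, hdiv hc, ?_, ?_, ?_⟩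
  · rw [hmod he2]; exact he1
  · intro x hx
    exact good_succ (hS x hx).2 hc (hcx x hx)
  · refine good_succ ?_ hc ?_
    · rw [hdiv he2]; exact hsu
    · rw [hmod he2]; exact he3

/-- extending a node of the Cantor set by zeros -/
theorem kn_zeros {l L k : ℕ} (h : l ≤ L) (hk : Kn l k) : Kn L (k * (B L / B l)) := by
  induction L, h using Nat.le_induction with
  | base => rwa [Nat.div_self (B_pos l), mul_one]
  | succ L h ih =>
    rw [Kn_succ, div_succ h, ← mul_assoc, Nat.mul_div_cancel _ (b_pos L), Nat.mul_mod_left]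
    exact ⟨ih, by have := b_ge L; omega⟩

theorem kn_lt {l k : ℕ} (hk : Kn l k) : k < B l := by
  induction l generalizing k with
  | zero =>
    have h1 : k = 0 := hk
    rw [h1]
    exact Nat.one_pos
  | succ l ih =>
    rw [Kn_succ] at hk
    have h1 := ih hk.1
    rw [B_succ]
    have := Nat.div_lt_iff_lt_mul (b_pos l) |>.1 h1
    exact this

/-- ... and one small last block -/
theorem kn_small {l L k j : ℕ} (h : l < L) (hk : Kn l k) (hj : j ≤ 5) :
    Kn L (k * (B L / B l) + j) := by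
  obtain ⟨L, rfl⟩ : ∃ L', L = L' + 1 := ⟨L - 1, by omega⟩
  have hlL : l ≤ L := by omega
  have hb := b_pos L
  have hb8 := b_ge L
  rw [Kn_succ, div_succ hlL, ← mul_assoc]
  have e1 : (k * (B L / B l) * b L + j) / b L = k * (B L / B l) := by
    have h0 : j / b L = 0 := Nat.div_eq_of_lt (by omega)
    rw [mul_comm _ (b L), Nat.mul_add_div hb, h0, add_zero]
  have e2 : (k * (B L / B l) * b L + j) % b L = j := by
    rw [mul_comm _ (b L), Nat.mul_add_mod, Nat.mod_eq_of_lt (by omega)]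
  rw [e1, e2]
  exact ⟨kn_zeros hlL hk, by omega⟩

theorem hit2 : S_HIT2 := by
  intro l L s' u' u d hs' hs1 hu' hd hz hdL hu hcu
  obtain ⟨hld, hcut⟩ := hz
  have hld' : l + 1 ≤ d.1 := hld
  obtain ⟨Q, hQ⟩ : ∃ Q, Q = B L / B d.1 := ⟨_, rfl⟩
  obtain ⟨Q2, hQ2⟩ : ∃ Q2, Q2 = B d.1 / B (l + 1) := ⟨_, rfl⟩
  obtain ⟨Q1, hQ1⟩ : ∃ Q1, Q1 = B L / B (l + 1) := ⟨_, rfl⟩
  have hQB : Q * B d.1 = B L := by rw [hQ]; exact Nat.div_mul_cancel (B_dvd (by omega))
  have hQ2B : Q2 * B (l + 1) = B d.1 := by rw [hQ2]; exact Nat.div_mul_cancel (B_dvd hld')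
  have hQ1B : Q1 * B (l + 1) = B L := by rw [hQ1]; exact Nat.div_mul_cancel (B_dvd (by omega))
  have hQQ : Q1 = Q * Q2 := by
    have h1 : Q1 * B (l + 1) = Q * Q2 * B (l + 1) := by
      rw [hQ1B, mul_assoc, hQ2B, hQB]
    exact Nat.eq_of_mul_eq_mul_right (B_pos _) h1
  have hQ8 : 8 ≤ Q := by
    have h1 : B d.1 * 8 ≤ B L := by
      have h2 : B (d.1 + 1) ≤ B L := Nat.le_of_dvd (B_pos _) (B_dvd hdL)
      rw [B_succ] at h2
      exact (Nat.mul_le_mul_left _ (b_ge _)).trans h2
    rw [hQ, Nat.le_div_iff_mul_le (B_pos _), mul_comm]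
    exact h1
  have hd2 : d.2 < B d.1 := kn_lt hd
  obtain ⟨z, hzd⟩ : ∃ z, z = d.2 * Q + 1 := ⟨_, rfl⟩
  have hzlt : z + 1 < B L := by
    have h1 : (d.2 + 1) * Q ≤ B d.1 * Q := Nat.mul_le_mul_right _ hd2
    rw [mul_comm (B d.1), hQB] at h1
    rw [hzd]
    have h2 : (d.2 + 1) * Q = d.2 * Q + Q := by ring
    omega
  have hK1 : Kn L z := by
    rw [hzd, hQ]
    exact kn_small hdL hd (by norm_num)
  have hK2 : Kn L (z + 1) := by
    rw [hzd, hQ, add_assoc]
    exact kn_small (j := 1 + 1) hdL hd (by norm_num)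
  have hq1 : 1 / Q = 0 := Nat.div_eq_of_lt (by omega)
  have hq2 : (1 + 1) / Q = 0 := Nat.div_eq_of_lt (by omega)
  have hQ0 : 0 < Q := by omega
  have hc1 : z / Q = d.2 := by
    rw [hzd, mul_comm d.2, Nat.mul_add_div hQ0, hq1, add_zero]
  have hc2 : (z + 1) / Q = d.2 := by
    rw [hzd, mul_comm d.2, add_assoc, Nat.mul_add_div hQ0, hq2, add_zero]
  obtain ⟨z0, hz0⟩ : ∃ z0, z0 = (s' + u') % B (l + 1) := ⟨_, rfl⟩
  have hzQ1 : z / Q1 = z0 := by
    rw [hQQ, ← Nat.div_div_eq_div_mul, hc1, hz0, hQ2]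
    exact hcut
  have huQ1 : u / Q1 = u' := by
    rw [hQ1]
    exact hcu
  have hQ1p : 0 < Q1 := by
    rcases Nat.eq_zero_or_pos Q1 with h | h
    · rw [h, zero_mul] at hQ1B
      have := B_pos L
      omega
    · exact h
  have hzl := Nat.div_add_mod z Q1
  have hul := Nat.div_add_mod u Q1
  have hzr := Nat.mod_lt z hQ1p
  have hur := Nat.mod_lt u hQ1p
  rw [hzQ1] at hzl
  rw [huQ1] at hul
  -- the number s
  have hs : ∃ s, s < B L ∧ (s + u) % B L = z ∧ (s + u + 1) % B L = z + 1 ∧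
      s + Q1 > Q1 * s' ∧ s < Q1 * (s' + 1) := by
    have hs'B : s' < B (l + 1) := hs'
    rcases Nat.lt_or_ge (s' + u') (B (l + 1)) with h | h
    · rw [Nat.mod_eq_of_lt h] at hz0
      have hs'1 : 1 ≤ s' := by
        rcases Nat.eq_zero_or_pos s' with h0 | h0
        · rw [h0, Nat.zero_mod] at hs1
          omega
        · exact h0
      have h1 : Q1 * (u' + 1) ≤ Q1 * z0 := Nat.mul_le_mul_left _ (by omega)
      have h2 : Q1 * (u' + 1) = Q1 * u' + Q1 := by ring
      have huz : u ≤ z := by omega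
      have h3 : Q1 * z0 = Q1 * s' + Q1 * u' := by rw [hz0]; ring
      refine ⟨z - u, by omega, ?_, ?_, ?_, ?_⟩
      · rw [Nat.sub_add_cancel huz, Nat.mod_eq_of_lt (by omega)]
      · rw [Nat.sub_add_cancel huz, Nat.mod_eq_of_lt (by omega)]
      · omega
      · have : Q1 * (s' + 1) = Q1 * s' + Q1 := by ring
        omega
    · have h0 : z0 = s' + u' - B (l + 1) := by
        rw [hz0, Nat.mod_eq_sub_mod h, Nat.mod_eq_of_lt (by omega)]
      have h1 : Q1 * (z0 + 1) ≤ Q1 * u' := Nat.mul_le_mul_left _ (by omega)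
      have h2 : Q1 * (z0 + 1) = Q1 * z0 + Q1 := by ring
      have huz : z < u := by omega
      have h3 : Q1 * z0 + B L = Q1 * s' + Q1 * u' := by
        rw [← hQ1B, ← mul_add, ← mul_add]
        congr 1
        omega
      refine ⟨z + B L - u, by omega, ?_, ?_, ?_, ?_⟩
      · rw [show z + B L - u + u = z + B L by omega, Nat.add_mod_right,
          Nat.mod_eq_of_lt (by omega)]
      · rw [show z + B L - u + u + 1 = z + 1 + B L by omega, Nat.add_mod_right,
          Nat.mod_eq_of_lt (by omega)]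
      · omega
      · have : Q1 * (s' + 1) = Q1 * s' + Q1 := by ring
        omega
  obtain ⟨s, hsB, hsz, hsz1, hlo, hhi⟩ := hs
  refine ⟨s, hsB, ?_, ?_, ?_⟩
  · show s / (B L / B l) = s' / b l
    have e : B L / B l = Q1 * b l := by
      have h1 : Q1 * b l * B l = B L := by
        rw [mul_assoc, mul_comm (b l), ← B_succ, hQ1B]
      rw [← h1, Nat.mul_div_cancel _ (B_pos l)]
    rw [e]
    have hb := b_pos l
    have hdm := Nat.div_add_mod s' (b l)
    have hml := Nat.mod_lt s' hb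
    obtain ⟨t, ht⟩ : ∃ t, t = s' / b l := ⟨_, rfl⟩
    rw [← ht] at hdm ⊢
    apply Nat.div_eq_of_lt_le
    · -- t * (Q1 * b l) ≤ s
      have h1 : Q1 * (b l * t + 1) ≤ Q1 * s' := Nat.mul_le_mul_left _ (by omega)
      have h2 : Q1 * (b l * t + 1) = t * (Q1 * b l) + Q1 := by ring
      omega
    · have h1 : Q1 * (s' + 1) ≤ Q1 * (b l * t + b l) := Nat.mul_le_mul_left _ (by omega)
      have h2 : Q1 * (b l * t + b l) = (t + 1) * (Q1 * b l) := by ring
      omega
  · refine ⟨?_, ?_⟩
    · rw [hsz]; exact hK1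
    · rw [hsz1]; exact hK2
  · refine ⟨rfl, ⟨?_, ?_⟩, ⟨?_, ?_⟩⟩
    · show d.1 ≤ L
      omega
    · show (s + u) % B L / (B L / B d.1) = d.2
      rw [hsz, ← hQ, hc1]
    · show d.1 ≤ L
      omega
    · show (s + u + 1) % B L / (B L / B d.1) = d.2
      rw [hsz1, ← hQ, hc2]

end Pool.Agent.W826.TC
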