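import Pool.Agent.W866.TC.Stm

/-!
# Translates of a Cantor set: closure points (REFL)
-/

set_option autoImplicit false

namespace Pool.Agent.W826.TC

open Pool.Agent.W866.TC
open Cardinal

theorem bdd (L : Set Wc) (hL : #L ≤ 𝔠) : ∃ a, ∀ c ∈ L, c < a := by
  by_contra hcon
  push Not at hcon
  have h1 : (Set.univ : Set Wc) ⊆ ⋃ β : L, insert β.1 (Set.Iio β.1) := by
    intro α _
    obtain ⟨β, hβ, h2⟩ := hcon α
    refine Set.mem_iUnion.2 ⟨⟨β, hβ⟩, ?_⟩
    rcases h2.lt_or_eq with h3 | h3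
    · exact Or.inr h3
    · exact Or.inl h3
  have h2 : #(⋃ β : L, insert β.1 (Set.Iio β.1)) ≤ 𝔠 := by
    refine (Cardinal.mk_iUnion_le _).trans ?_
    calc #L * _ ≤ 𝔠 * 𝔠 := by
          apply mul_le_mul' hL
          apply ciSup_le'
          intro i
          refine (Cardinal.mk_insert_le).trans ?_
          have h3 : #(Set.Iio i.1) ≤ 𝔠 := by
            have := Cardinal.mk_Iio_toType_ord_lt i.1
            exact Order.lt_succ_iff.1 this
          calc #(Set.Iio i.1) + 1 ≤ 𝔠 + 𝔠 :=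
                add_le_add h3 (Cardinal.one_le_aleph0.trans Cardinal.aleph0_le_continuum)
            _ = 𝔠 := Cardinal.continuum_add_self
      _ = 𝔠 := Cardinal.continuum_mul_self
  have h3 : #(Set.univ : Set Wc) ≤ 𝔠 := (Cardinal.mk_le_mk_of_subset h1).trans h2
  rw [Cardinal.mk_univ, Cardinal.mk_ord_toType] at h3
  exact absurd h3 (not_le.2 (Order.lt_succ _))

/-- `ω₁` -/
abbrev Om : Type := (ℵ_ 1 : Cardinal.{0}).ord.ToType

theorem Iio_om (a : Om) : (Set.Iio a).Countable := by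
  have h3 := Cardinal.mk_Iio_toType_ord_lt a
  rw [← Cardinal.le_aleph0_iff_set_countable]
  have : #(Set.Iio a) < Order.succ ℵ₀ := by
    rw [← Cardinal.aleph_zero, ← Cardinal.aleph_succ]
    simpa using h3
  exact Order.lt_succ_iff.1 this

theorem om_unc : ¬ (Set.univ : Set Om).Countable := by
  intro h4
  rw [← Cardinal.le_aleph0_iff_set_countable, Cardinal.mk_univ, Cardinal.mk_ord_toType] at h4
  exact absurd h4 (not_le.2 Cardinal.aleph0_lt_aleph_one)

theorem om_bound (g : ℕ → Om) : ∃ a, ∀ n, g n < a := by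
  by_contra hcon
  push Not at hcon
  have h1 : (Set.univ : Set Om) ⊆ ⋃ n, insert (g n) (Set.Iio (g n)) := by
    intro a _
    obtain ⟨n, hn⟩ := hcon a
    refine Set.mem_iUnion.2 ⟨n, ?_⟩
    rcases hn.lt_or_eq with h | h
    · exact Or.inr h
    · exact Or.inl h
  exact om_unc ((Set.countable_iUnion fun n => (Iio_om _).insert _).mono h1)

theorem mk_om : #Om ≤ 𝔠 := by
  rw [Cardinal.mk_ord_toType]
  exact Cardinal.aleph_one_le_continuum

theorem refl : S_REFL := by
  intro hC f hf a0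
  haveI : Nonempty Wc := ⟨a0⟩
  choose! ub hub using bdd
  -- the closure function
  have hg : ∀ x : Wc, #(insert x (⋃ o : {o : Obj // InB x o}, f o.1) : Set Wc) ≤ 𝔠 := by
    intro x
    refine (Cardinal.mk_insert_le).trans ?_
    have h1 : #(⋃ o : {o : Obj // InB x o}, f o.1 : Set Wc) ≤ 𝔠 := by
      refine (Cardinal.mk_iUnion_le _).trans ?_
      calc _ ≤ 𝔠 * 𝔠 := by
            apply mul_le_mul' (hC x)
            apply ciSup_le'
            intro o
            exact ((hf o.1).le_aleph0).trans Cardinal.aleph0_le_continuum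
        _ = 𝔠 := Cardinal.continuum_mul_self
    calc _ ≤ 𝔠 + 𝔠 :=
          add_le_add h1 (Cardinal.one_le_aleph0.trans Cardinal.aleph0_le_continuum)
      _ = 𝔠 := Cardinal.continuum_add_self
  obtain ⟨g, hg1, hg2⟩ : ∃ g : Wc → Wc, (∀ x, x < g x) ∧
      ∀ x o, InB x o → ∀ c ∈ f o, c < g x := by
    refine ⟨fun x => ub (insert x (⋃ o : {o : Obj // InB x o}, f o.1)), fun x => ?_,
      fun x o ho c hc => ?_⟩
    · exact hub _ (hg x) x (Set.mem_insert _ _)
    · exact hub _ (hg x) c (Set.mem_insert_of_mem _ (Set.mem_iUnion.2 ⟨⟨o, ho⟩, hc⟩))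
  -- the recursion
  have hrec : ∃ h : Om → Wc, ∀ x, h x = ub (insert a0 (Set.range fun y : Set.Iio x => g (h y.1))) := by
    let wf : WellFounded (fun x y : Om => x < y) := wellFounded_lt
    refine ⟨wf.fix (fun x F => ub (insert a0 (Set.range fun y : Set.Iio x => g (F y.1 y.2)))),
      fun x => ?_⟩
    rw [wf.fix_eq]
  obtain ⟨h, hh⟩ := hrec
  have hsmall : ∀ x : Om, #(insert a0 (Set.range fun y : Set.Iio x => g (h y.1)) : Set Wc) ≤ 𝔠 := by
    intro x
    have h1 : (insert a0 (Set.range fun y : Set.Iio x => g (h y.1)) : Set Wc).Countable := by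
      apply Set.Countable.insert
      haveI : Countable (Set.Iio x) := (Iio_om x).to_subtype
      exact Set.countable_range _
    exact h1.le_aleph0.trans Cardinal.aleph0_le_continuum
  have ha0 : ∀ x, a0 < h x := by
    intro x
    rw [hh x]
    exact hub _ (hsmall x) a0 (Set.mem_insert _ _)
  have hgh : ∀ x y, y < x → g (h y) < h x := by
    intro x y hy
    rw [hh x]
    exact hub _ (hsmall x) _ (Set.mem_insert_of_mem _ ⟨⟨y, hy⟩, rfl⟩)
  have hmono : ∀ x y, y < x → h y < h x := fun x y hy => (hg1 _).trans (hgh x y hy)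
  -- the supremum
  have hU : ({a | ∀ x, h x < a} : Set Wc).Nonempty := by
    obtain ⟨a, ha⟩ := bdd (Set.range h) (Cardinal.mk_range_le.trans mk_om)
    exact ⟨a, fun x => ha _ ⟨x, rfl⟩⟩
  let wf : WellFounded (fun x y : Wc => x < y) := wellFounded_lt
  obtain ⟨a, ha, hmin⟩ : ∃ a : Wc, (∀ x, h x < a) ∧ ∀ e < a, ∃ x, e ≤ h x := by
    refine ⟨wf.min _ hU, wf.min_mem _ hU, fun e he => ?_⟩
    by_contra hcon
    push Not at hcon
    have hcon' : e ∈ ({a | ∀ x, h x < a} : Set Wc) := hcon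
    exact wf.not_lt_min _ hcon' he
  obtain ⟨x0, -⟩ := om_bound (fun n => Classical.choice (by
    by_contra hne
    rw [not_nonempty_iff] at hne
    exact om_unc (Set.countable_univ_iff.2 (by infer_instance))))
  have h2 : ∀ C : Set Wc, C.Countable → (∀ c ∈ C, c < a) → ∃ x, ∀ c ∈ C, c < h x := by
    intro C hCc hCa
    rcases C.eq_empty_or_nonempty with hne | hne
    · exact ⟨x0, by rw [hne]; simp⟩
    · obtain ⟨s, hs⟩ := hCc.exists_eq_range hne
      have h3 : ∀ n, ∃ x, s n ≤ h x := fun n => hmin _ (hCa _ (by rw [hs]; exact ⟨n, rfl⟩))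
      choose xs hxs using h3
      obtain ⟨x, hx⟩ := om_bound xs
      refine ⟨x, fun c hc => ?_⟩
      rw [hs] at hc
      obtain ⟨n, rfl⟩ := hc
      exact (hxs n).trans_lt (hmono _ _ (hx n))
  refine ⟨a, (ha0 x0).trans (ha x0), ?_, ?_⟩
  · intro C hCc hCa
    obtain ⟨x, hx⟩ := h2 C hCc hCa
    exact ⟨h x, ha x, hx⟩
  · intro o ho c hc
    obtain ⟨x, hx⟩ := h2 o.1.w ho.1.cw ho.2.1
    have ho' : InB (h x) o := ⟨ho.1, hx, ho.2.2⟩
    obtain ⟨x', hx'⟩ := om_bound (fun _ => x)
    exact ((hg2 _ o ho' c hc).trans (hgh x' x (hx' 0))).trans (ha x')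

end Pool.Agent.W826.TC
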